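import Mathlib

set_option autoImplicit false

namespace Pool.Agent.Lib.MP_d2e2bc_co

open Finset

/-- the prime `1 + i` of the Gaussian integers -/
def pp : GaussianInt := ⟨1, 1⟩

/-- the imaginary unit -/
def ii : GaussianInt := ⟨0, 1⟩

/-- reduction modulo `1 + i` -/
def red : GaussianInt →+* ZMod 2 := Zsqrtd.lift ⟨1, by decide⟩

lemma red_apply (z : GaussianInt) : red z = (z.re : ZMod 2) + (z.im : ZMod 2) := by
  simp [red]

lemma red_pp : red pp = 0 := by
  rw [red_apply]; decide

lemma pp_ne_zero : pp ≠ 0 := by decide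

lemma pp_dvd_iff (z : GaussianInt) : pp ∣ z ↔ red z = 0 := by
  constructor
  · rintro ⟨w, rfl⟩
    rw [map_mul, red_pp, zero_mul]
  · intro h
    rw [red_apply] at h
    have h2 : ((z.re + z.im : ℤ) : ZMod 2) = 0 := by push_cast; exact h
    rw [ZMod.intCast_zmod_eq_zero_iff_dvd] at h2
    obtain ⟨k, hk⟩ := h2
    refine ⟨⟨k, k - z.re⟩, ?_⟩
    ext
    · simp [pp]
    · simp [pp]; push_cast at hk; linarith

lemma norm_pp : pp.norm = 2 := by decide

lemma red_norm (z : GaussianInt) : ((z.norm : ℤ) : ZMod 2) = red z := by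
  rw [red_apply, Zsqrtd.norm_def]
  push_cast
  generalize (z.re : ZMod 2) = a
  generalize (z.im : ZMod 2) = b
  revert a b
  decide

lemma exists_of_norm (m : ℕ) : ∀ z : GaussianInt, z.norm = 2 ^ m →
    ∃ w, z = pp ^ m * w ∧ red w = 1 := by
  induction m with
  | zero =>
    intro z hz
    refine ⟨z, by simp, ?_⟩
    rw [← red_norm, hz]; simp
  | succ m ih =>
    intro z hz
    have h1 : pp ∣ z := by
      rw [pp_dvd_iff, ← red_norm, hz]
      push_cast
      rw [pow_succ]
      have : (2 : ZMod 2) = 0 := by decide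
      rw [this, mul_zero]
    obtain ⟨u, rfl⟩ := h1
    rw [Zsqrtd.norm_mul, norm_pp, pow_succ, mul_comm] at hz
    have hu : u.norm = 2 ^ m := by
      have := mul_right_cancel₀ (by norm_num : (2 : ℤ) ≠ 0) hz
      exact this
    obtain ⟨w, hw, hr⟩ := ih u hu
    exact ⟨w, by rw [hw]; ring, hr⟩

lemma two_eq : (2 : GaussianInt) = pp ^ 2 * (-ii) := by decide

lemma ii_sq : ii ^ 2 = -1 := by decide

lemma fourth_root {z : GaussianInt} (h : z ^ 4 = 1) : z = 1 ∨ z = -1 ∨ z = ii ∨ z = -ii := by
  have h1 : (z - 1) * ((z + 1) * ((z - ii) * (z + ii))) = 0 := by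
    have := ii_sq
    linear_combination h - (z ^ 2 - 1) * this
  rcases mul_eq_zero.1 h1 with h | h
  · left; linear_combination h
  rcases mul_eq_zero.1 h with h | h
  · right; left; linear_combination h
  rcases mul_eq_zero.1 h with h | h
  · right; right; left; linear_combination h
  · right; right; right; linear_combination h

lemma mul_star_of_fourth {z : GaussianInt} (h : z ^ 4 = 1) : z * star z = 1 := by
  rcases fourth_root h with rfl | rfl | rfl | rfl <;> decide

/-- the sign character of `ZMod 2` -/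
def sg (a : ZMod 2) : GaussianInt := if a = 0 then 1 else -1

lemma sg_add (a b : ZMod 2) : sg (a + b) = sg a * sg b := by
  revert a b; decide

lemma sg_zero : sg 0 = 1 := by decide

lemma sg_eq_one_iff (a : ZMod 2) : sg a = 1 ↔ a = 0 := by
  revert a; decide

/-- the high bit of a fourth root of unity -/
def hi (z : GaussianInt) : ZMod 2 := if z = -1 ∨ z = -ii then 1 else 0

lemma hi_mul_sg {z : GaussianInt} (h : z ^ 4 = 1) (a : ZMod 2) : hi (z * sg a) = hi z + a := by
  rcases fourth_root h with rfl | rfl | rfl | rfl <;> revert a <;> decide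

lemma factor_one {z : GaussianInt} (h : z ^ 4 = 1) :
    ∃ w, z - ii = pp * w ∧ red w = if z ^ 2 = 1 then 1 else 0 := by
  rcases fourth_root h with rfl | rfl | rfl | rfl
  · exact ⟨-ii, by decide, by rw [red_apply]; decide⟩
  · exact ⟨-1, by decide, by rw [red_apply]; decide⟩
  · exact ⟨0, by decide, by rw [red_apply]; decide⟩
  · exact ⟨-pp, by decide, by rw [red_apply]; decide⟩

lemma factor_two {z : GaussianInt} (h : z ^ 4 = 1) :
    ∃ w, 2 * (z - 1) - ii * pp * (1 + (-1) * z ^ 2) = pp ^ 4 * w ∧ red w = hi z := by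
  rcases fourth_root h with rfl | rfl | rfl | rfl
  · exact ⟨0, by decide, by rw [red_apply]; decide⟩
  · exact ⟨1, by decide, by rw [red_apply]; decide⟩
  · exact ⟨0, by decide, by rw [red_apply]; decide⟩
  · exact ⟨ii, by decide, by rw [red_apply]; decide⟩

lemma factor_three {z : GaussianInt} (h : z ^ 4 = 1) :
    ∃ w, (z - 1) * (1 + 1 * z ^ 2) = pp ^ 4 * w ∧
      red w = (if z ^ 2 = 1 then 1 else 0) * hi z := by
  rcases fourth_root h with rfl | rfl | rfl | rfl
  · exact ⟨0, by decide, by rw [red_apply]; decide⟩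
  · exact ⟨1, by decide, by rw [red_apply]; decide⟩
  · exact ⟨0, by decide, by rw [red_apply]; decide⟩
  · exact ⟨0, by decide, by rw [red_apply]; decide⟩

end Pool.Agent.Lib.MP_d2e2bc_co
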