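import Mathlib
import Pool.Agent.Lib.MP_d2e2bc_co.Gauss

set_option autoImplicit false

namespace Pool.Agent.Lib.MP_d2e2bc_co

open Finset

variable {F : Type} [Field F] [CharP F 2]

/-- characters of the group `F × F` with `(x,y) * (x',y') = (x + x', y + y' + x x')` -/
def IsChar (χ : F → F → GaussianInt) : Prop :=
  χ 0 0 = 1 ∧ ∀ x y x' y', χ (x + x') (y + y' + x * x') = χ x y * χ x' y'

/-- planar functions in characteristic two -/
def Planar (f : F → F) : Prop :=
  ∀ ε : F, ε ≠ 0 → Function.Bijective (fun x : F => f (x + ε) + f x + ε * x)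

omit [CharP F 2] in
lemma IsChar.one : IsChar (fun _ _ : F => (1 : GaussianInt)) := ⟨rfl, fun _ _ _ _ => by simp⟩

omit [CharP F 2] in
lemma IsChar.mul {χ ψ : F → F → GaussianInt} (h : IsChar χ) (h' : IsChar ψ) :
    IsChar (fun x y => χ x y * ψ x y) :=
  ⟨by simp [h.1, h'.1], fun x y x' y' => by simp only [h.2, h'.2]; ring⟩

omit [CharP F 2] in
lemma IsChar.add_right {χ : F → F → GaussianInt} (h : IsChar χ) (x y y' : F) :
    χ x (y + y') = χ x y * χ 0 y' := by
  have := h.2 x y 0 y'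
  simpa using this

lemma IsChar.sq {χ : F → F → GaussianInt} (h : IsChar χ) (x y : F) :
    χ x y ^ 2 = χ 0 (x ^ 2) := by
  have := h.2 x y x y
  rw [CharTwo.add_self_eq_zero, CharTwo.add_self_eq_zero, zero_add] at this
  rw [pow_two, pow_two, this]

lemma IsChar.sq_zero {χ : F → F → GaussianInt} (h : IsChar χ) (y : F) :
    χ 0 y ^ 2 = 1 := by
  rw [h.sq]; simpa using h.1

lemma IsChar.pow_four {χ : F → F → GaussianInt} (h : IsChar χ) (x y : F) :
    χ x y ^ 4 = 1 := by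
  have : χ x y ^ 4 = (χ x y ^ 2) ^ 2 := by ring
  rw [this, h.sq, h.sq_zero]

lemma IsChar.star {χ : F → F → GaussianInt} (h : IsChar χ) (x y : F) :
    star (χ x y) = χ x (y + x ^ 2) := by
  have h1 := mul_star_of_fourth (h.pow_four x y)
  have h2 := h.2 x y x (y + x ^ 2)
  have h3 : y + (y + x ^ 2) + x * x = 0 := by
    have := CharTwo.add_self_eq_zero y
    have h' := CharTwo.add_self_eq_zero (x ^ 2)
    linear_combination this + h'
  rw [CharTwo.add_self_eq_zero, h3, h.1] at h2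
  have h4 : χ x y ≠ 0 := by
    intro h0; rw [h0] at h1; simp at h1
  apply mul_left_cancel₀ h4
  rw [h1, ← h2]

variable [Fintype F]

omit [CharP F 2] in
lemma sum_eq_zero_of_mul (g : F → GaussianInt) (hg : ∀ x y, g (x + y) = g x * g y) (a : F)
    (ha : g a ≠ 1) : ∑ x, g x = 0 := by
  have h1 : ∑ x, g x = ∑ x, g (a + x) :=
    (Fintype.sum_equiv (Equiv.addLeft a) _ _ (fun _ => rfl)).symm
  simp only [hg, ← mul_sum] at h1
  have h2 : (g a - 1) * ∑ x, g x = 0 := by linear_combination -h1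
  rcases mul_eq_zero.1 h2 with h | h
  · exact absurd (sub_eq_zero.1 h) ha
  · exact h

lemma norm_sum {f : F → F} (hf : Planar f) {χ : F → F → GaussianInt} (h : IsChar χ)
    (a : F) (ha : χ 0 a ≠ 1) : (∑ x, χ x (f x)).norm = Fintype.card F := by
  classical
  have hN : ∑ y, χ 0 y = 0 := sum_eq_zero_of_mul (χ 0) (fun x y => h.add_right 0 x y) a ha
  have h1 : (∑ x, χ x (f x)) * star (∑ x, χ x (f x)) = (Fintype.card F : GaussianInt) := by
    rw [star_sum, mul_sum]
    have h2 : ∀ x : F, (∑ x', χ x' (f x')) * star (χ x (f x)) =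
        ∑ e, χ e (f (x + e) + f x + e * x) := by
      intro x
      rw [sum_mul, h.star]
      rw [← Fintype.sum_equiv (Equiv.addLeft x)
        (fun e => χ (x + e) (f (x + e)) * χ x (f x + x ^ 2)) _ (fun _ => rfl)]
      refine sum_congr rfl fun e _ => ?_
      rw [← h.2]
      have h2 := CharTwo.add_self_eq_zero x
      have h3 := CharTwo.add_self_eq_zero (x ^ 2)
      congr 1
      · linear_combination h2
      · linear_combination h3
    simp only [h2]
    rw [sum_comm]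
    rw [Fintype.sum_eq_single (0 : F)]
    · simp [CharTwo.add_self_eq_zero, h.1]
    · intro e he
      have h3 := (hf e he).sum_comp (fun y => χ e y)
      rw [h3]
      have h4 : ∀ y, χ e y = χ e 0 * χ 0 y := fun y => by rw [← h.add_right, zero_add]
      rw [sum_congr rfl (fun y _ => h4 y), ← mul_sum, hN, mul_zero]
  have h5 := Zsqrtd.norm_eq_mul_conj (∑ x, χ x (f x))
  rw [h1] at h5
  exact_mod_cast h5

omit [CharP F 2] in
lemma sum_trivial (f : F → F) {χ : F → F → GaussianInt} (h : IsChar χ)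
    (ha : ∀ a, χ 0 a = 1) : (Fintype.card F : GaussianInt) ∣ ∑ x, χ x (f x) := by
  have h1 : ∀ x y, χ x y = χ x 0 := fun x y => by
    rw [← zero_add y, h.add_right, ha, mul_one]
  have h2 : ∀ x y, χ (x + y) 0 = χ x 0 * χ y 0 := fun x y => by
    rw [← h.2, h1 (x + y) (0 + 0 + x * y)]
  rw [sum_congr rfl (fun x _ => h1 x (f x))]
  by_cases h3 : ∀ x, χ x 0 = 1
  · simp [h3]
  · push Not at h3
    obtain ⟨a, ha⟩ := h3
    rw [sum_eq_zero_of_mul (fun x => χ x 0) h2 a ha]
    exact dvd_zero _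

lemma pow_dvd_card {m : ℕ} (hm : 1 ≤ m) : pp ^ (m + 1) ∣ ((2 ^ m : ℕ) : GaussianInt) := by
  push_cast
  rw [two_eq, mul_pow, ← pow_mul]
  exact Dvd.dvd.mul_right (pow_dvd_pow _ (by omega)) _

/-- the divisibility invariant -/
def Good (m : ℕ) (f : F → F) (P : F → GaussianInt) : Prop :=
  ∀ χ : F → F → GaussianInt, IsChar χ →
    pp ^ m ∣ ∑ x, P x * χ x (f x) ∧
    ∀ ψ : F → F → GaussianInt, IsChar ψ → ∀ s : GaussianInt, (s = 1 ∨ s = -1) →
      pp ^ (m + 1) ∣ ∑ x, P x * χ x (f x) * (1 + s * ψ x (f x) ^ 2)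

lemma good_one {m : ℕ} (hm : 1 ≤ m) (hc : Fintype.card F = 2 ^ m) {f : F → F} (hf : Planar f) :
    Good m f (fun _ => 1) := by
  intro χ hχ
  simp only [one_mul]
  by_cases h : ∀ a, χ 0 a = 1
  · have h1 : pp ^ (m + 1) ∣ ∑ x, χ x (f x) :=
      (pow_dvd_card hm).trans (hc ▸ sum_trivial f hχ h)
    refine ⟨(pow_dvd_pow _ (by omega)).trans h1, fun ψ hψ s _ => ?_⟩
    have h2 : pp ^ (m + 1) ∣ ∑ x, χ x (f x) * (ψ x (f x) * ψ x (f x)) := by
      refine (pow_dvd_card hm).trans (hc ▸ sum_trivial f (hχ.mul (hψ.mul hψ)) ?_)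
      intro a
      rw [h a, one_mul, ← pow_two, hψ.sq_zero]
    have h3 : ∑ x, χ x (f x) * (1 + s * ψ x (f x) ^ 2) =
        ∑ x, χ x (f x) + s * ∑ x, χ x (f x) * (ψ x (f x) * ψ x (f x)) := by
      rw [mul_sum, ← sum_add_distrib]
      exact sum_congr rfl fun x _ => by ring
    rw [h3]
    exact dvd_add h1 (h2.mul_left _)
  · push Not at h
    obtain ⟨a, ha⟩ := h
    obtain ⟨w, hw, hr⟩ := exists_of_norm m _ (by rw [norm_sum hf hχ a ha, hc]; push_cast; rfl)
    refine ⟨⟨w, hw⟩, fun ψ hψ s hs => ?_⟩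
    have ha' : χ 0 a * (ψ 0 a * ψ 0 a) ≠ 1 := by
      simpa only [← pow_two, hψ.sq_zero, mul_one] using ha
    obtain ⟨w', hw', hr'⟩ := exists_of_norm m _
      (by rw [norm_sum hf (hχ.mul (hψ.mul hψ)) a ha', hc]; push_cast; rfl)
    have h3 : ∑ x, χ x (f x) * (1 + s * ψ x (f x) ^ 2) =
        ∑ x, χ x (f x) + s * ∑ x, χ x (f x) * (ψ x (f x) * ψ x (f x)) := by
      rw [mul_sum, ← sum_add_distrib]
      exact sum_congr rfl fun x _ => by ring
    rw [h3, hw, hw']
    have h4 : pp ∣ w + s * w' := by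
      rw [pp_dvd_iff, map_add, map_mul, hr, hr']
      rcases hs with rfl | rfl
      · rw [map_one]; decide
      · rw [map_neg, map_one]; decide
    obtain ⟨t, ht⟩ := h4
    exact ⟨t, by linear_combination pp ^ m * ht⟩

omit [CharP F 2] in
lemma Good.mul_sub {m : ℕ} {f : F → F} {P : F → GaussianInt} (hP : Good m f P)
    {φ : F → F → GaussianInt} (hφ : IsChar φ) (c : GaussianInt) :
    Good m f (fun x => P x * (φ x (f x) - c)) := by
  intro χ hχ
  obtain ⟨h1, h2⟩ := hP χ hχ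
  obtain ⟨h3, h4⟩ := hP _ (hφ.mul hχ)
  refine ⟨?_, fun ψ hψ s hs => ?_⟩
  · have : ∑ x, P x * (φ x (f x) - c) * χ x (f x) =
        ∑ x, P x * (φ x (f x) * χ x (f x)) - c * ∑ x, P x * χ x (f x) := by
      rw [mul_sum, ← sum_sub_distrib]
      exact sum_congr rfl fun x _ => by ring
    rw [this]
    exact dvd_sub h3 (h1.mul_left _)
  · have : ∑ x, P x * (φ x (f x) - c) * χ x (f x) * (1 + s * ψ x (f x) ^ 2) =
        ∑ x, P x * (φ x (f x) * χ x (f x)) * (1 + s * ψ x (f x) ^ 2) -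
          c * ∑ x, P x * χ x (f x) * (1 + s * ψ x (f x) ^ 2) := by
      rw [mul_sum, ← sum_sub_distrib]
      exact sum_congr rfl fun x _ => by ring
    rw [this]
    exact dvd_sub (h4 ψ hψ s hs) ((h2 ψ hψ s hs).mul_left _)

lemma good_prod {m : ℕ} (hm : 1 ≤ m) (hc : Fintype.card F = 2 ^ m) {f : F → F} (hf : Planar f)
    {ι : Type} (χ : ι → F → F → GaussianInt) (hχ : ∀ j, IsChar (χ j)) (B : Finset ι) :
    Good m f (fun x => ∏ j ∈ B, (χ j x (f x) - ii)) := by
  classical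
  induction B using Finset.induction_on with
  | empty => simpa using good_one hm hc hf
  | insert j B hj ih =>
    have := ih.mul_sub (hχ j) ii
    simpa only [prod_insert hj, mul_comm] using this

/-- first parity statement -/
lemma parity_one {m : ℕ} (hc : Fintype.card F = 2 ^ m) {f : F → F} (hf : Planar f)
    {ι : Type} (χ : ι → F → F → GaussianInt) (hχ : ∀ j, IsChar (χ j)) (B : Finset ι)
    (hB : B.card + 3 = m) {φ : F → F → GaussianInt} (hφ : IsChar φ) :
    ∑ x, (∏ j ∈ B, (if χ j x (f x) ^ 2 = 1 then (1 : ZMod 2) else 0)) * hi (φ x (f x)) = 0 := by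
  have hG := good_prod (by omega) hc hf χ hχ B
  have h1 := ((hG.mul_sub hφ 1) _ IsChar.one).1
  have h2 := (hG _ IsChar.one).2 φ hφ (-1) (Or.inr rfl)
  choose η hη hη' using fun j x => factor_one ((hχ j).pow_four x (f x))
  choose w hw hw' using fun x => factor_two (hφ.pow_four x (f x))
  have h3 : pp ^ (m + 2) ∣ pp ^ (m + 1) * ∑ x, (∏ j ∈ B, η j x) * w x := by
    have h4 : pp ^ (m + 1) * ∑ x, (∏ j ∈ B, η j x) * w x =
        2 * (∑ x, (∏ j ∈ B, (χ j x (f x) - ii)) * (φ x (f x) - 1) * 1) -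
          ii * pp * ∑ x, (∏ j ∈ B, (χ j x (f x) - ii)) * 1 * (1 + (-1) * φ x (f x) ^ 2) := by
      rw [mul_sum, mul_sum, mul_sum, ← sum_sub_distrib]
      refine sum_congr rfl fun x _ => ?_
      simp only [hη, prod_mul_distrib, prod_const]
      rw [← hB]
      linear_combination (-(pp ^ B.card * ∏ j ∈ B, η j x)) * hw x
    rw [h4]
    refine dvd_sub ?_ ?_
    · obtain ⟨t, ht⟩ := h1
      rw [ht, two_eq]
      exact ⟨-ii * t, by ring⟩
    · obtain ⟨t, ht⟩ := h2
      rw [ht]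
      exact ⟨ii * t, by ring⟩
  rw [pow_succ pp (m + 1), mul_dvd_mul_iff_left (pow_ne_zero _ pp_ne_zero), pp_dvd_iff] at h3
  simpa only [map_sum, map_mul, map_prod, hη', hw'] using h3

/-- second parity statement -/
lemma parity_two {m : ℕ} (hc : Fintype.card F = 2 ^ m) {f : F → F} (hf : Planar f)
    {ι : Type} (χ : ι → F → F → GaussianInt) (hχ : ∀ j, IsChar (χ j)) (B : Finset ι)
    (hB : B.card + 4 = m) {φ : F → F → GaussianInt} (hφ : IsChar φ) :
    ∑ x, (∏ j ∈ B, (if χ j x (f x) ^ 2 = 1 then (1 : ZMod 2) else 0)) *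
      ((if φ x (f x) ^ 2 = 1 then 1 else 0) * hi (φ x (f x))) = 0 := by
  have hG := good_prod (by omega) hc hf χ hχ B
  have h2 := ((hG.mul_sub hφ 1) _ IsChar.one).2 φ hφ 1 (Or.inl rfl)
  choose η hη hη' using fun j x => factor_one ((hχ j).pow_four x (f x))
  choose w hw hw' using fun x => factor_three (hφ.pow_four x (f x))
  have h3 : pp ^ (m + 1) ∣ pp ^ m * ∑ x, (∏ j ∈ B, η j x) * w x := by
    have h4 : pp ^ m * ∑ x, (∏ j ∈ B, η j x) * w x =
        ∑ x, (∏ j ∈ B, (χ j x (f x) - ii)) * (φ x (f x) - 1) * 1 * (1 + 1 * φ x (f x) ^ 2) := by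
      rw [mul_sum]
      refine sum_congr rfl fun x _ => ?_
      simp only [hη, prod_mul_distrib, prod_const]
      rw [← hB]
      linear_combination (-(pp ^ B.card * ∏ j ∈ B, η j x)) * hw x
    rw [h4]
    exact h2
  rw [pow_succ pp m, mul_dvd_mul_iff_left (pow_ne_zero _ pp_ne_zero), pp_dvd_iff] at h3
  simpa only [map_sum, map_mul, map_prod, hη', hw'] using h3

end Pool.Agent.Lib.MP_d2e2bc_co
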