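import Mathlib
import Pool.Agent.Lib.MP_d2e2bc_co.Chars

set_option autoImplicit false

namespace Pool.Agent.Lib.MP_d2e2bc_co

open Finset

/-- the group `F × F` with the twisted addition -/
@[ext] structure Tw (F : Type) where
  x : F
  y : F

variable {F : Type} [Field F] [CharP F 2]

instance twGroup : CommGroup (Tw F) where
  mul a b := ⟨a.x + b.x, a.y + b.y + a.x * b.x⟩
  one := ⟨0, 0⟩
  inv a := ⟨a.x, a.y + a.x ^ 2⟩
  mul_assoc a b c := by
    ext
    · change a.x + b.x + c.x = a.x + (b.x + c.x)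
      ring
    · change a.y + b.y + a.x * b.x + c.y + (a.x + b.x) * c.x =
        a.y + (b.y + c.y + b.x * c.x) + a.x * (b.x + c.x)
      ring
  one_mul a := by
    ext
    · change 0 + a.x = a.x
      ring
    · change 0 + a.y + 0 * a.x = a.y
      ring
  mul_one a := by
    ext
    · change a.x + 0 = a.x
      ring
    · change a.y + 0 + a.x * 0 = a.y
      ring
  inv_mul_cancel a := by
    ext
    · change a.x + a.x = 0
      exact CharTwo.add_self_eq_zero _
    · change a.y + a.x ^ 2 + a.y + a.x * a.x = 0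
      linear_combination CharTwo.add_self_eq_zero a.y + CharTwo.add_self_eq_zero (a.x ^ 2)
  mul_comm a b := by
    ext
    · change a.x + b.x = b.x + a.x
      ring
    · change a.y + b.y + a.x * b.x = b.y + a.y + b.x * a.x
      ring

lemma tw_mul (a b : Tw F) : a * b = ⟨a.x + b.x, a.y + b.y + a.x * b.x⟩ := rfl

lemma tw_one : (1 : Tw F) = ⟨0, 0⟩ := rfl

lemma tw_pow_four (a : Tw F) : a ^ 4 = 1 := by
  have h : a * a = ⟨0, a.x ^ 2⟩ := by
    rw [tw_mul]
    ext
    · exact CharTwo.add_self_eq_zero _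
    · change a.y + a.y + a.x * a.x = a.x ^ 2
      linear_combination CharTwo.add_self_eq_zero a.y
  have h2 : a ^ 4 = (a * a) * (a * a) := by
    rw [← pow_two, ← pow_two, ← pow_mul]
  rw [h2, h, tw_mul, tw_one]
  ext
  · simp
  · change a.x ^ 2 + a.x ^ 2 + 0 * 0 = 0
    linear_combination CharTwo.add_self_eq_zero (a.x ^ 2)

lemma enough_four : HasEnoughRootsOfUnity GaussianInt 4 where
  prim := ⟨ii, by
    refine IsPrimitiveRoot.mk_of_lt ii (by norm_num) (by decide) ?_
    intro l h0 h4
    interval_cases l <;> decide⟩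
  cyc := inferInstance

lemma exists_char [Finite F] (lam : F →+ ZMod 2) :
    ∃ χ : F → F → GaussianInt, IsChar χ ∧ ∀ y, χ 0 y = sg (lam y) := by
  have hfin : Finite (Tw F) :=
    Finite.of_injective (fun a : Tw F => (a.x, a.y)) (fun a b h => by
      ext
      · exact congrArg Prod.fst h
      · exact congrArg Prod.snd h)
  have h4 := enough_four
  have hE : HasEnoughRootsOfUnity GaussianInt (Monoid.exponent (Tw F)) :=
    HasEnoughRootsOfUnity.of_dvd GaussianInt
      (Monoid.exponent_dvd_of_forall_pow_eq_one (n := 4) tw_pow_four)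
  let H : Subgroup (Tw F) :=
    { carrier := {a | a.x = 0}
      mul_mem' := fun {a b} ha hb => by
        change a.x + b.x = 0
        rw [show a.x = 0 from ha, show b.x = 0 from hb, add_zero]
      one_mem' := rfl
      inv_mem' := fun {a} ha => ha }
  let φ0 : H →* GaussianInt :=
    { toFun := fun a => sg (lam a.1.y)
      map_one' := by
        change sg (lam 0) = 1
        rw [map_zero, sg_zero]
      map_mul' := fun a b => by
        change sg (lam (a.1.y + b.1.y + a.1.x * b.1.x)) = _
        rw [show a.1.x = 0 from a.2, zero_mul, add_zero, map_add, sg_add] }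
  obtain ⟨φ, hφ⟩ := MonoidHom.domRestrict_surjective GaussianInt H φ0.toHomUnits
  refine ⟨fun x y => (φ ⟨x, y⟩ : GaussianInt), ⟨?_, ?_⟩, ?_⟩
  · change ((φ 1 : GaussianIntˣ) : GaussianInt) = 1
    rw [map_one, Units.val_one]
  · intro x y x' y'
    change ((φ (⟨x, y⟩ * ⟨x', y'⟩) : GaussianIntˣ) : GaussianInt) = _
    rw [map_mul, Units.val_mul]
  · intro y
    have := congrArg (fun ψ : H →* GaussianIntˣ => (ψ ⟨⟨0, y⟩, rfl⟩ : GaussianInt)) hφ
    exact this

section basis

variable {ι : Type} [Fintype ι] [DecidableEq ι] [Algebra (ZMod 2) F]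

omit [CharP F 2] [Fintype ι] in
lemma repr_sum (b : Module.Basis ι (ZMod 2) F) (S : Finset ι) (j : ι) :
    b.repr (∑ k ∈ S, b k) j = if j ∈ S then 1 else 0 := by
  rw [map_sum, Finsupp.finsetSum_apply]
  simp only [Module.Basis.repr_self, Finsupp.single_apply]
  rw [sum_ite_eq']

omit [CharP F 2] in
lemma eq_sum_supp (b : Module.Basis ι (ZMod 2) F) (x : F) :
    x = ∑ k ∈ univ.filter (fun k => b.repr x k ≠ 0), b k := by
  apply b.repr.injective
  ext j
  rw [repr_sum]
  simp only [mem_filter, mem_univ, true_and]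
  generalize b.repr x j = a
  revert a
  decide

omit [CharP F 2] in
lemma sum_flat [Fintype F] (b : Module.Basis ι (ZMod 2) F) (K : Finset ι) (g : F → ZMod 2) :
    ∑ x, (∏ j ∈ Kᶜ, (if b.repr x j = 0 then (1 : ZMod 2) else 0)) * g x =
      ∑ S ∈ K.powerset, g (∑ k ∈ S, b k) := by
  classical
  have h1 : ∀ x, (∏ j ∈ Kᶜ, (if b.repr x j = 0 then (1 : ZMod 2) else 0)) * g x =
      if ∀ j ∈ Kᶜ, b.repr x j = 0 then g x else 0 := by
    intro x
    rw [prod_boole]
    split_ifs <;> simp
  simp only [h1]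
  rw [← sum_filter]
  symm
  refine sum_nbij' (fun S => ∑ k ∈ S, b k) (fun x => univ.filter (fun k => b.repr x k ≠ 0))
    ?_ ?_ ?_ ?_ ?_
  · intro S hS
    simp only [mem_filter, mem_univ, true_and]
    intro j hj
    rw [repr_sum, if_neg]
    intro hjS
    exact (mem_compl.1 hj) (mem_powerset.1 hS hjS)
  · intro x hx
    simp only [mem_filter, mem_univ, true_and] at hx
    rw [mem_powerset]
    intro j hj
    simp only [mem_filter, mem_univ, true_and] at hj
    by_contra hK
    exact hj (hx j (mem_compl.2 hK))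
  · intro S _
    ext j
    simp only [mem_filter, mem_univ, true_and, repr_sum]
    split_ifs with h <;> simp [h]
  · intro x _
    exact (eq_sum_supp b x).symm
  · intro S _
    rfl

lemma hi_sum [Fintype F] (b : Module.Basis ι (ZMod 2) F) {f : F → F} (hf : Planar f)
    (χ : ι → F → F → GaussianInt) (hχ : ∀ j, IsChar (χ j))
    (hl : ∀ j x, χ j 0 (x ^ 2) = sg (b.repr x j)) (K : Finset ι) (hK : K.card = 3) (p : ι) :
    ∑ S ∈ K.powerset, hi (χ p (∑ k ∈ S, b k) (f (∑ k ∈ S, b k))) = 0 := by
  have hc : Fintype.card F = 2 ^ Fintype.card ι := by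
    rw [Module.card_fintype b, ZMod.card]
  have hsq : ∀ j x, (χ j x (f x) ^ 2 = 1) ↔ b.repr x j = 0 := fun j x => by
    rw [(hχ j).sq, hl, sg_eq_one_iff]
  rw [← sum_flat b K (fun x => hi (χ p x (f x)))]
  have hle := card_le_univ K
  by_cases hp : p ∈ K
  · have := parity_one hc hf χ hχ Kᶜ (by rw [card_compl]; omega) (hχ p)
    simpa only [hsq] using this
  · have hp' : p ∈ Kᶜ := mem_compl.2 hp
    have hpos : 0 < Kᶜ.card := card_pos.2 ⟨p, hp'⟩
    have := parity_two hc hf χ hχ (Kᶜ.erase p)
      (by rw [card_erase_of_mem hp']; rw [card_compl] at hpos ⊢; omega) (hχ p)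
    simp only [hsq] at this
    refine Eq.trans (sum_congr rfl fun x _ => ?_) this
    rw [← prod_erase_mul _ _ hp', mul_assoc]

/-- iterated difference along basis vectors -/
def DD (b : ι → F) (f : F → F) (K : Finset ι) (x : F) : F :=
  ∑ S ∈ K.powerset, f (x + ∑ k ∈ S, b k)

omit [CharP F 2] [Fintype ι] [Algebra (ZMod 2) F] in
lemma DD_insert (b : ι → F) (f : F → F) {K : Finset ι} {j : ι} (hj : j ∉ K) (x : F) :
    DD b f (insert j K) x = DD b f K x + DD b f K (x + b j) := by
  unfold DD
  rw [sum_powerset_insert hj]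
  congr 1
  refine sum_congr rfl fun S hS => ?_
  rw [sum_insert (fun h => hj (mem_powerset.1 hS h)), add_assoc]

lemma DD_three [Fintype F] (b : Module.Basis ι (ZMod 2) F) {f : F → F} (hf : Planar f)
    (K : Finset ι) (hK : K.card = 3) (x0 : F) : DD b f K x0 = 0 := by
  have : Fact (Nat.Prime 2) := ⟨Nat.prime_two⟩
  let sq := (frobeniusEquiv F 2).symm
  have hsq : ∀ x : F, sq (x ^ 2) = x := fun x => by
    have : x ^ 2 = frobeniusEquiv F 2 x := rfl
    rw [this, RingEquiv.symm_apply_apply]
  let lam : ι → F →+ ZMod 2 := fun j => (b.coord j).toAddMonoidHom.comp sq.toAddMonoidHom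
  have hlam : ∀ j y, lam j y = b.repr (sq y) j := fun j y => rfl
  choose χ hχ hχ' using fun j => exists_char (lam j)
  have hl : ∀ j x, χ j 0 (x ^ 2) = sg (b.repr x j) := fun j x => by
    rw [hχ', hlam, hsq]
  have hg : Planar (fun x : F => x * x0) := by
    intro e he
    have : (fun x : F => (x + e) * x0 + x * x0 + e * x) = fun x => e * x + e * x0 := by
      ext x
      linear_combination CharTwo.add_self_eq_zero (x * x0)
    rw [this]
    exact (Equiv.addRight (e * x0)).bijective.comp (mulLeft_bijective₀ e he)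
  have hf' : Planar (fun x : F => x * x0 + f (x0 + x)) := by
    intro e he
    have : (fun x : F => (x + e) * x0 + f (x0 + (x + e)) + (x * x0 + f (x0 + x)) + e * x) =
        (fun x => f (x + e) + f x + e * x) ∘ (fun x => x0 + x) := by
      ext x
      simp only [Function.comp]
      rw [add_assoc x0 x e]
      linear_combination CharTwo.add_self_eq_zero (x * x0)
    rw [this]
    exact (hf e he).comp (Equiv.addLeft x0).bijective
  have key : ∀ p, lam p (DD b f K x0) = 0 := by
    intro p
    have h1 := hi_sum b hg χ hχ hl K hK p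
    have h2 := hi_sum b hf' χ hχ hl K hK p
    simp only [(hχ p).add_right, hχ', hi_mul_sg ((hχ p).pow_four _ _), sum_add_distrib] at h2
    rw [h1, zero_add, ← map_sum] at h2
    exact h2
  have h0 : sq (DD b f K x0) = 0 := by
    apply b.repr.injective
    ext j
    rw [← hlam, key, map_zero, Finsupp.zero_apply]
  exact sq.injective (by rw [h0, map_zero])

lemma DD_ge_three [Fintype F] (b : Module.Basis ι (ZMod 2) F) {f : F → F} (hf : Planar f)
    (K : Finset ι) (hK : 3 ≤ K.card) : ∀ x0 : F, DD b f K x0 = 0 := by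
  induction K using Finset.induction_on with
  | empty => simp at hK
  | insert j K hj ih =>
    intro x0
    rcases Nat.lt_or_ge K.card 3 with h | h
    · exact DD_three b hf _ (by rw [card_insert_of_notMem hj] at hK ⊢; omega) x0
    · rw [DD_insert _ _ hj, ih h, ih h, add_zero]

omit [Fintype ι] [Algebra (ZMod 2) F] in
lemma sum_DD (b : ι → F) (f : F → F) (S : Finset ι) :
    ∀ x0, ∑ T ∈ S.powerset, DD b f T x0 = f (x0 + ∑ k ∈ S, b k) := by
  induction S using Finset.induction_on with
  | empty => intro x0; simp [DD]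
  | insert j S hj ih =>
    intro x0
    rw [sum_powerset_insert hj, sum_insert hj, ← add_assoc, ← ih (x0 + b j), ← sum_add_distrib]
    refine sum_congr rfl fun T hT => ?_
    rw [DD_insert _ _ (fun h => hj (mem_powerset.1 hT h)), ← add_assoc,
      CharTwo.add_self_eq_zero, zero_add]

lemma anf (b : Module.Basis ι (ZMod 2) F) (f : F → F) (x : F) :
    f x = ∑ T : Finset ι, DD b f T 0 * ∏ j ∈ T, algebraMap (ZMod 2) F (b.repr x j) := by
  have h1 := sum_DD b f (univ.filter (fun k => b.repr x k ≠ 0)) 0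
  rw [zero_add, ← eq_sum_supp b x] at h1
  rw [← h1]
  symm
  rw [← sum_subset (subset_univ (univ.filter (fun k => b.repr x k ≠ 0)).powerset)]
  · refine sum_congr rfl fun T hT => ?_
    rw [prod_eq_one, mul_one]
    intro j hj
    have h2 := mem_powerset.1 hT hj
    simp only [mem_filter, mem_univ, true_and] at h2
    have h3 : ∀ a : ZMod 2, a ≠ 0 → a = 1 := by decide
    rw [h3 _ h2, map_one]
  · intro T _ hT
    rw [mem_powerset, not_subset] at hT
    obtain ⟨j, hj, hj'⟩ := hT
    simp only [mem_filter, mem_univ, true_and, not_not] at hj'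
    rw [prod_eq_zero hj (by rw [hj', map_zero]), mul_zero]

end basis

/-- functions that are a constant plus a sum of terms `a x ^ (2 ^ i + 2 ^ j)` -/
def IsDO (g : F → F) : Prop :=
  ∃ (S : Finset (ℕ × ℕ)) (a : ℕ × ℕ → F) (c : F),
    ∀ x : F, g x = c + ∑ p ∈ S, a p * x ^ (2 ^ p.1 + 2 ^ p.2)

omit [CharP F 2] in
lemma IsDO.const (c : F) : IsDO (fun _ : F => c) := ⟨∅, 0, c, fun _ => by simp⟩

omit [CharP F 2] in
lemma IsDO.smul {g : F → F} (h : IsDO g) (c : F) : IsDO (fun x => c * g x) := by
  obtain ⟨S, a, d, h⟩ := h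
  refine ⟨S, fun p => c * a p, c * d, fun x => ?_⟩
  beta_reduce
  rw [h, mul_add, mul_sum]
  simp only [mul_assoc]

omit [CharP F 2] in
lemma IsDO.add {g g' : F → F} (h : IsDO g) (h' : IsDO g') : IsDO (fun x => g x + g' x) := by
  classical
  obtain ⟨S, a, d, h⟩ := h
  obtain ⟨S', a', d', h'⟩ := h'
  refine ⟨S ∪ S', fun p => (if p ∈ S then a p else 0) + (if p ∈ S' then a' p else 0), d + d',
    fun x => ?_⟩
  simp only [add_mul, sum_add_distrib, ite_mul, zero_mul, sum_ite_mem, union_inter_cancel_left,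
    union_inter_cancel_right, h, h']
  ring

omit [CharP F 2] in
lemma IsDO.sum {κ : Type} (T : Finset κ) (g : κ → F → F) (h : ∀ t ∈ T, IsDO (g t)) :
    IsDO (fun x => ∑ t ∈ T, g t x) := by
  classical
  induction T using Finset.induction_on with
  | empty => simpa using IsDO.const (0 : F)
  | insert t T ht ih =>
    simp only [sum_insert ht]
    exact (h t (mem_insert_self _ _)).add (ih fun s hs => h s (mem_insert_of_mem hs))

omit [CharP F 2] in
lemma isDO_mul [Finite F] [Algebra (ZMod 2) F] (l l' : F →ₗ[ZMod 2] ZMod 2) :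
    IsDO (fun x => algebraMap (ZMod 2) F (l x) * algebraMap (ZMod 2) F (l' x)) := by
  have : Fact (Nat.Prime 2) := ⟨Nat.prime_two⟩
  have hrep : ∀ l : F →ₗ[ZMod 2] ZMod 2, ∃ u : F, ∀ x, algebraMap (ZMod 2) F (l x) =
      ∑ i ∈ range (Module.finrank (ZMod 2) F), u ^ (2 ^ i) * x ^ (2 ^ i) := by
    intro l
    obtain ⟨u, hu⟩ := ((Algebra.traceForm (ZMod 2) F).toDual
      (traceForm_nondegenerate (ZMod 2) F)).surjective l
    refine ⟨u, fun x => ?_⟩
    have h1 : l x = Algebra.trace (ZMod 2) F (u * x) := by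
      rw [← hu, LinearMap.BilinForm.toDual_def, Algebra.traceForm_apply]
    rw [h1, FiniteField.algebraMap_trace_eq_sum_pow]
    simp only [Nat.card_zmod, mul_pow]
  obtain ⟨u, hu⟩ := hrep l
  obtain ⟨v, hv⟩ := hrep l'
  refine ⟨range (Module.finrank (ZMod 2) F) ×ˢ range (Module.finrank (ZMod 2) F),
    fun p => u ^ (2 ^ p.1) * v ^ (2 ^ p.2), 0, fun x => ?_⟩
  beta_reduce
  rw [hu, hv, zero_add, sum_mul_sum, sum_product]
  refine sum_congr rfl fun i _ => sum_congr rfl fun j _ => ?_
  rw [pow_add]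
  ring

lemma zmod_two_mul_self : ∀ a : ZMod 2, a * a = a := by decide

theorem isDO_of_planar [Finite F] [Algebra (ZMod 2) F] {f : F → F} (hf : Planar f) :
    IsDO f := by
  classical
  have := Fintype.ofFinite F
  have : Fact (Nat.Prime 2) := ⟨Nat.prime_two⟩
  let b := Module.finBasis (ZMod 2) F
  have h1 : f = fun x => ∑ T : Finset (Fin (Module.finrank (ZMod 2) F)),
      DD b f T 0 * ∏ j ∈ T, algebraMap (ZMod 2) F (b.repr x j) := funext (anf b f)
  rw [h1]
  refine IsDO.sum _ _ fun T _ => ?_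
  rcases Nat.lt_or_ge T.card 3 with h | h
  · refine IsDO.smul ?_ _
    have h2 : T.card = 0 ∨ T.card = 1 ∨ T.card = 2 := by omega
    rcases h2 with h2 | h2 | h2
    · rw [card_eq_zero.1 h2]
      simpa using IsDO.const (1 : F)
    · obtain ⟨j, rfl⟩ := card_eq_one.1 h2
      have h3 := isDO_mul (b.coord j) (b.coord j)
      simpa only [prod_singleton, ← map_mul, zmod_two_mul_self, Module.Basis.coord_apply] using h3
    · obtain ⟨j, k, hjk, rfl⟩ := card_eq_two.1 h2
      have h3 := isDO_mul (b.coord j) (b.coord k)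
      simpa only [prod_pair hjk, Module.Basis.coord_apply] using h3
  · rw [DD_ge_three b hf T h 0]
    simpa using IsDO.const (0 : F)

end Pool.Agent.Lib.MP_d2e2bc_co
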