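import Mathlib
import Pool.Agent.Lib.MP_d2e2bc_co.Main

set_option autoImplicit false

namespace Pool.Agent.Lib.MP_d2e2bc_co.Vec

open Finset Pool.Agent.Lib.MP_d2e2bc_co

variable {F : Type} [Field F] [CharP F 2] {B : F →+ F →+ F} {W : AddSubgroup F}

/-- characters of the group `F × F` with `(x,y) * (x',y') = (x + x', y + y' + B x x')` -/
def Ch (B : F →+ F →+ F) (χ : F → F → GaussianInt) : Prop :=
  χ 0 0 = 1 ∧ ∀ x y x' y', χ (x + x') (y + y' + B x x') = χ x y * χ x' y'

/-- all difference maps are balanced onto `W` -/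
def Bal (B : F →+ F →+ F) (W : AddSubgroup F) (f : F → F) : Prop :=
  ∀ a : F, a ≠ 0 → ∀ w ∈ W, Nat.card {x : F // f (x + a) + f x + B a x = w} * Nat.card W = Nat.card F

omit [CharP F 2] in
lemma Ch.one : Ch B (fun _ _ : F => (1 : GaussianInt)) := ⟨rfl, fun _ _ _ _ => by simp⟩

omit [CharP F 2] in
lemma Ch.mul {χ ψ : F → F → GaussianInt} (h : Ch B χ) (h' : Ch B ψ) :
    Ch B (fun x y => χ x y * ψ x y) :=
  ⟨by simp [h.1, h'.1], fun x y x' y' => by simp only [h.2, h'.2]; ring⟩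

omit [CharP F 2] in
lemma Ch.add_right {χ : F → F → GaussianInt} (h : Ch B χ) (x y y' : F) :
    χ x (y + y') = χ x y * χ 0 y' := by
  have := h.2 x y 0 y'
  simpa using this

lemma Ch.sq {χ : F → F → GaussianInt} (h : Ch B χ) (x y : F) : χ x y ^ 2 = χ 0 (B x x) := by
  have := h.2 x y x y
  rw [CharTwo.add_self_eq_zero, CharTwo.add_self_eq_zero, zero_add] at this
  rw [pow_two, this]

lemma Ch.sq_zero {χ : F → F → GaussianInt} (h : Ch B χ) (y : F) : χ 0 y ^ 2 = 1 := by
  rw [h.sq]; simpa using h.1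

lemma Ch.pow_four {χ : F → F → GaussianInt} (h : Ch B χ) (x y : F) : χ x y ^ 4 = 1 := by
  have : χ x y ^ 4 = (χ x y ^ 2) ^ 2 := by ring
  rw [this, h.sq, h.sq_zero]

lemma Ch.star {χ : F → F → GaussianInt} (h : Ch B χ) (x y : F) :
    star (χ x y) = χ x (y + B x x) := by
  have h1 := mul_star_of_fourth (h.pow_four x y)
  have h2 := h.2 x y x (y + B x x)
  have h3 : y + (y + B x x) + B x x = 0 := by
    linear_combination CharTwo.add_self_eq_zero y + CharTwo.add_self_eq_zero (B x x)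
  rw [CharTwo.add_self_eq_zero, h3, h.1] at h2
  have h4 : χ x y ≠ 0 := by
    intro h0; rw [h0] at h1; simp at h1
  apply mul_left_cancel₀ h4
  rw [h1, ← h2]

variable [Fintype F]

omit [CharP F 2] in
/-- A map whose fibres over `W` have the right size takes its values in `W`. -/
lemma bal_facts {g : F → F}
    (hg : ∀ w ∈ W, Nat.card {x : F // g x = w} * Nat.card W = Nat.card F) :
    (∀ x, g x ∈ W) ∧ ∀ u : F → GaussianInt, (∀ x y, u (x + y) = u x * u y) →
      (∃ a ∈ W, u a ≠ 1) → ∑ x, u (g x) = 0 := by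
  classical
  let T : Finset F := univ.filter fun w => w ∈ W
  have hT : T.card = Nat.card W := by
    rw [Nat.card_eq_fintype_card, Fintype.card_subtype]
  have hW : 0 < Nat.card W := Nat.card_pos
  have h1 : ∀ w ∈ T, (univ.filter fun x => g x = w).card = Nat.card F / Nat.card W := by
    intro w hw
    rw [← hg w (mem_filter.1 hw).2, Nat.mul_div_cancel _ hW, Nat.card_eq_fintype_card,
      Fintype.card_subtype]
  have h2 : (univ.filter fun x => g x ∈ T).card = Fintype.card F := by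
    rw [card_eq_sum_card_fiberwise (f := g) (s := univ.filter fun x => g x ∈ T) (t := T)
      fun x hx => mem_coe.2 (mem_filter.1 (mem_coe.1 hx)).2,
      sum_congr rfl fun w hw => (show ((univ.filter fun x => g x ∈ T).filter fun x => g x = w).card
        = Nat.card F / Nat.card W by
          rw [← h1 w hw, filter_filter]
          exact congrArg card (filter_congr fun x _ => and_iff_right_of_imp fun h => h ▸ hw)),
      sum_const, smul_eq_mul, hT, ← Nat.card_eq_fintype_card, ← hg 0 W.zero_mem,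
      Nat.mul_div_cancel _ hW, mul_comm]
  have h3 : ∀ x, g x ∈ T := fun x => by
    have := mem_univ x
    rw [← (card_eq_iff_eq_univ _).1 h2] at this
    exact (mem_filter.1 this).2
  refine ⟨fun x => (mem_filter.1 (h3 x)).2, fun u hu ⟨a, ha, ha'⟩ => ?_⟩
  have h4 : ∑ w ∈ T, u w = 0 := by
    have e : ∑ w ∈ T, u w = ∑ w ∈ T, u (a + w) :=
      (sum_bijective (a + ·) (Equiv.addLeft a).bijective
        (fun w => by simp [T, W.add_mem_cancel_left ha]) fun _ _ => rfl).symm
    simp only [hu, ← mul_sum] at e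
    have h5 : (u a - 1) * ∑ w ∈ T, u w = 0 := by linear_combination -e
    exact (mul_eq_zero.1 h5).resolve_left (sub_ne_zero.2 ha')
  rw [← sum_fiberwise_of_maps_to (g := g) (t := T) fun x _ => h3 x,
    sum_congr rfl fun w hw => (show ∑ x ∈ univ.filter fun x => g x = w, u (g x)
      = ((Nat.card F / Nat.card W : ℕ) : GaussianInt) * u w by
        rw [sum_congr rfl fun x hx => congrArg u (mem_filter.1 hx).2, sum_const, h1 w hw,
          nsmul_eq_mul]), ← mul_sum, h4, mul_zero]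

lemma Bal.mem {f : F → F} (hf : Bal B W f) (a x : F) : f (x + a) + f x + B a x ∈ W := by
  by_cases ha : a = 0
  · simp [ha, CharTwo.add_self_eq_zero]
  · exact (bal_facts (hf a ha)).1 x

lemma norm_sum {f : F → F} (hf : Bal B W f)
    {χ : F → F → GaussianInt} (h : Ch B χ) (ha : ∃ a ∈ W, χ 0 a ≠ 1) :
    (∑ x, χ x (f x)).norm = Fintype.card F := by
  classical
  have h1 : (∑ x, χ x (f x)) * star (∑ x, χ x (f x)) = (Fintype.card F : GaussianInt) := by
    rw [star_sum, mul_sum]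
    have h2 : ∀ x : F, (∑ x', χ x' (f x')) * star (χ x (f x)) =
        ∑ e, χ e (f (x + e) + f x + B e x) := by
      intro x
      rw [sum_mul, h.star]
      rw [← Fintype.sum_equiv (Equiv.addLeft x)
        (fun e => χ (x + e) (f (x + e)) * χ x (f x + B x x)) _ (fun _ => rfl)]
      refine sum_congr rfl fun e _ => ?_
      rw [← h.2, map_add, AddMonoidHom.add_apply]
      congr 1
      · linear_combination CharTwo.add_self_eq_zero x
      · linear_combination CharTwo.add_self_eq_zero (B x x)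
    simp only [h2]
    rw [sum_comm]
    rw [Fintype.sum_eq_single (0 : F)]
    · simp [CharTwo.add_self_eq_zero, h.1]
    · intro e he
      have h4 : ∀ y, χ e y = χ e 0 * χ 0 y := fun y => by rw [← h.add_right, zero_add]
      rw [sum_congr rfl (fun x _ => h4 _), ← mul_sum,
        (bal_facts (hf e he)).2 (χ 0) (fun x y => h.add_right 0 x y) ha, mul_zero]
  have h5 := Zsqrtd.norm_eq_mul_conj (∑ x, χ x (f x))
  rw [h1] at h5
  exact_mod_cast h5

lemma sum_trivial {f : F → F} (hf : Bal B W f) {χ : F → F → GaussianInt} (h : Ch B χ)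
    (ha : ∀ a ∈ W, χ 0 a = 1) : (Fintype.card F : GaussianInt) ∣ ∑ x, χ x (f x) := by
  have m1 : ∀ x, f x + f 0 ∈ W := fun x => by simpa using hf.mem x 0
  have m2 : ∀ x y, B x y ∈ W := fun x y => by
    have := W.add_mem (W.add_mem (hf.mem x y) (m1 (y + x))) (m1 y)
    have e : f (y + x) + f y + B x y + (f (y + x) + f 0) + (f y + f 0) = B x y := by
      linear_combination CharTwo.add_self_eq_zero (f (y + x)) + CharTwo.add_self_eq_zero (f y) +
        CharTwo.add_self_eq_zero (f 0)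
    rwa [e] at this
  have h1 : ∀ x, χ x (f x) = χ x 0 * χ 0 (f 0) := fun x => by
    have e : f x = 0 + f 0 + (f x + f 0) := by
      linear_combination -CharTwo.add_self_eq_zero (f 0)
    rw [e, h.add_right, h.add_right, ha _ (m1 x), mul_one]
  have h2 : ∀ x y, χ (x + y) 0 = χ x 0 * χ y 0 := fun x y => by
    rw [← h.2, h.add_right, ha _ (m2 x y), mul_one, add_zero]
  rw [sum_congr rfl (fun x _ => h1 x), ← sum_mul]
  refine Dvd.dvd.mul_right ?_ _
  by_cases h3 : ∀ x, χ x 0 = 1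
  · simp [h3]
  · push Not at h3
    obtain ⟨a, ha⟩ := h3
    rw [sum_eq_zero_of_mul (fun x => χ x 0) h2 a ha]
    exact dvd_zero _

/-- the divisibility invariant -/
def Inv (B : F →+ F →+ F) (m : ℕ) (f : F → F) (P : F → GaussianInt) : Prop :=
  ∀ χ : F → F → GaussianInt, Ch B χ →
    pp ^ m ∣ ∑ x, P x * χ x (f x) ∧
    ∀ ψ : F → F → GaussianInt, Ch B ψ →
      pp ^ (m + 1) ∣ ∑ x, P x * χ x (f x) * (1 + (-1) * ψ x (f x) ^ 2)

lemma inv_one {m : ℕ} (hm : 1 ≤ m) (hc : Fintype.card F = 2 ^ m)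
    {f : F → F} (hf : Bal B W f) : Inv B m f (fun _ => 1) := by
  intro χ hχ
  simp only [one_mul]
  have h3 : ∀ ψ : F → F → GaussianInt, ∑ x, χ x (f x) * (1 + (-1) * ψ x (f x) ^ 2) =
      ∑ x, χ x (f x) - ∑ x, χ x (f x) * (ψ x (f x) * ψ x (f x)) := fun ψ => by
    rw [← sum_sub_distrib]
    exact sum_congr rfl fun x _ => by ring
  by_cases h : ∀ a ∈ W, χ 0 a = 1
  · have h1 : pp ^ (m + 1) ∣ ∑ x, χ x (f x) :=
      (pow_dvd_card hm).trans (hc ▸ sum_trivial hf hχ h)
    refine ⟨(pow_dvd_pow _ (by omega)).trans h1, fun ψ hψ => ?_⟩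
    have h2 : pp ^ (m + 1) ∣ ∑ x, χ x (f x) * (ψ x (f x) * ψ x (f x)) := by
      refine (pow_dvd_card hm).trans (hc ▸ sum_trivial hf (hχ.mul (hψ.mul hψ)) ?_)
      intro a ha
      rw [h a ha, one_mul, ← pow_two, hψ.sq_zero]
    rw [h3]
    exact dvd_sub h1 h2
  · push Not at h
    obtain ⟨w, hw, hr⟩ := exists_of_norm m _ (by rw [norm_sum hf hχ h, hc]; push_cast; rfl)
    refine ⟨⟨w, hw⟩, fun ψ hψ => ?_⟩
    have ha' : ∃ a ∈ W, χ 0 a * (ψ 0 a * ψ 0 a) ≠ 1 := by
      simpa only [← pow_two, hψ.sq_zero, mul_one] using h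
    obtain ⟨w', hw', hr'⟩ := exists_of_norm m _
      (by rw [norm_sum hf (hχ.mul (hψ.mul hψ)) ha', hc]; push_cast; rfl)
    rw [h3, hw, hw']
    have h4 : pp ∣ w - w' := by rw [pp_dvd_iff, map_sub, hr, hr', sub_self]
    obtain ⟨t, ht⟩ := h4
    exact ⟨t, by linear_combination pp ^ m * ht⟩

omit [CharP F 2] in
lemma Inv.mul_sub {m : ℕ} {f : F → F} {P : F → GaussianInt} (hP : Inv B m f P)
    {φ : F → F → GaussianInt} (hφ : Ch B φ) (c : GaussianInt) :
    Inv B m f (fun x => P x * (φ x (f x) - c)) := by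
  intro χ hχ
  obtain ⟨h1, h2⟩ := hP χ hχ
  obtain ⟨h3, h4⟩ := hP _ (hφ.mul hχ)
  refine ⟨?_, fun ψ hψ => ?_⟩
  · have : ∑ x, P x * (φ x (f x) - c) * χ x (f x) =
        ∑ x, P x * (φ x (f x) * χ x (f x)) - c * ∑ x, P x * χ x (f x) := by
      rw [mul_sum, ← sum_sub_distrib]
      exact sum_congr rfl fun x _ => by ring
    rw [this]
    exact dvd_sub h3 (h1.mul_left _)
  · have : ∑ x, P x * (φ x (f x) - c) * χ x (f x) * (1 + (-1) * ψ x (f x) ^ 2) =
        ∑ x, P x * (φ x (f x) * χ x (f x)) * (1 + (-1) * ψ x (f x) ^ 2) -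
          c * ∑ x, P x * χ x (f x) * (1 + (-1) * ψ x (f x) ^ 2) := by
      rw [mul_sum, ← sum_sub_distrib]
      exact sum_congr rfl fun x _ => by ring
    rw [this]
    exact dvd_sub (h4 ψ hψ) ((h2 ψ hψ).mul_left _)

/-- the parity statement with weights -/
lemma parity {m : ℕ} (hc : Fintype.card F = 2 ^ m) {f : F → F}
    (hf : Bal B W f) {ι : Type} (χ : ι → F → F → GaussianInt) (hχ : ∀ j, Ch B (χ j))
    (c : ι → GaussianInt) (e : ι → ℕ) (t : ι → F → ZMod 2)
    (ht : ∀ j x, ∃ w, χ j x (f x) - c j = pp ^ e j * w ∧ red w = t j x) (S : Finset ι)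
    (hS : ∑ j ∈ S, e j + 3 ≤ m) {φ : F → F → GaussianInt} (hφ : Ch B φ) :
    ∑ x, (∏ j ∈ S, t j x) * hi (φ x (f x)) = 0 := by
  classical
  have hm : 1 ≤ m := by omega
  have hG : Inv B m f (fun x => ∏ j ∈ S, (χ j x (f x) - c j)) := by
    clear hS
    induction S using Finset.induction_on with
    | empty => simpa using inv_one hm hc hf
    | insert j S hj ih =>
      have := ih.mul_sub (hχ j) (c j)
      simpa only [prod_insert hj, mul_comm] using this
  have h1 := ((hG.mul_sub hφ 1) _ Ch.one).1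
  have h2 := (hG _ Ch.one).2 φ hφ
  choose η hη hη' using ht
  choose w hw hw' using fun x => factor_two (hφ.pow_four x (f x))
  have h3 : pp ^ (m + 2) ∣ pp ^ (∑ j ∈ S, e j + 4) * ∑ x, (∏ j ∈ S, η j x) * w x := by
    have h4 : pp ^ (∑ j ∈ S, e j + 4) * ∑ x, (∏ j ∈ S, η j x) * w x =
        2 * (∑ x, (∏ j ∈ S, (χ j x (f x) - c j)) * (φ x (f x) - 1) * 1) -
          ii * pp * ∑ x, (∏ j ∈ S, (χ j x (f x) - c j)) * 1 * (1 + (-1) * φ x (f x) ^ 2) := by
      rw [mul_sum, mul_sum, mul_sum, ← sum_sub_distrib]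
      refine sum_congr rfl fun x _ => ?_
      simp only [hη, prod_mul_distrib, prod_pow_eq_pow_sum]
      linear_combination (-(pp ^ (∑ j ∈ S, e j) * ∏ j ∈ S, η j x)) * hw x
    rw [h4]
    refine dvd_sub ?_ ?_
    · obtain ⟨t, ht⟩ := h1
      rw [ht, two_eq]
      exact ⟨-ii * t, by ring⟩
    · obtain ⟨t, ht⟩ := h2
      rw [ht]
      exact ⟨ii * t, by ring⟩
  have h5 := (pow_dvd_pow pp (show ∑ j ∈ S, e j + 4 + 1 ≤ m + 2 by omega)).trans h3
  rw [pow_succ pp, mul_dvd_mul_iff_left (pow_ne_zero _ pp_ne_zero), pp_dvd_iff] at h5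
  simpa only [map_sum, map_mul, map_prod, hη', hw'] using h5

end Pool.Agent.Lib.MP_d2e2bc_co.Vec
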