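import Mathlib
import Pool.Agent.Lib.MP_d2e2bc_co.VChars

set_option autoImplicit false

namespace Pool.Agent.Lib.MP_d2e2bc_co.Vec

open Finset Pool.Agent.Lib.MP_d2e2bc_co

variable {F : Type} [Field F] [CharP F 2] {B : F →+ F →+ F} {W : AddSubgroup F}

/-- the group `F × F` with the addition twisted by `B` -/
@[ext] structure TB (B : F →+ F →+ F) where
  x : F
  y : F

/-- the group structure -/
@[reducible] def grp (hB : ∀ x y, B x y = B y x) : CommGroup (TB B) where
  mul a b := ⟨a.x + b.x, a.y + b.y + B a.x b.x⟩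
  one := ⟨0, 0⟩
  inv a := ⟨a.x, a.y + B a.x a.x⟩
  mul_assoc a b c := by
    ext
    · exact add_assoc _ _ _
    · change a.y + b.y + B a.x b.x + c.y + B (a.x + b.x) c.x =
        a.y + (b.y + c.y + B b.x c.x) + B a.x (b.x + c.x)
      simp only [map_add, AddMonoidHom.add_apply]
      ring
  one_mul a := by
    ext
    · exact zero_add _
    · change 0 + a.y + B 0 a.x = a.y
      simp
  mul_one a := by
    ext
    · exact add_zero _
    · change a.y + 0 + B a.x 0 = a.y
      simp
  inv_mul_cancel a := by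
    ext
    · exact CharTwo.add_self_eq_zero _
    · change a.y + B a.x a.x + a.y + B a.x a.x = 0
      exact (add_assoc _ _ _).trans (CharTwo.add_self_eq_zero _)
  mul_comm a b := by
    ext
    · exact add_comm _ _
    · change a.y + b.y + B a.x b.x = b.y + a.y + B b.x a.x
      rw [hB, add_comm a.y]

lemma exists_ch [Finite F] (hB : ∀ x y, B x y = B y x) (lam : F →+ ZMod 2) :
    ∃ χ : F → F → GaussianInt, Ch B χ ∧ ∀ y, χ 0 y = sg (lam y) := by
  letI := grp hB
  have hmul : ∀ a b : TB B, a * b = ⟨a.x + b.x, a.y + b.y + B a.x b.x⟩ := fun _ _ => rfl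
  have hfin : Finite (TB B) :=
    Finite.of_injective (fun a : TB B => (a.x, a.y)) (fun a b h => by
      ext
      · exact congrArg Prod.fst h
      · exact congrArg Prod.snd h)
  have h4 := enough_four
  have hp : ∀ a : TB B, a ^ 4 = 1 := fun a => by
    have h2 : a ^ 4 = (a * a) * (a * a) := by rw [← pow_two, ← pow_two, ← pow_mul]
    rw [h2, hmul a a, hmul]
    ext
    · exact CharTwo.add_self_eq_zero _
    · change _ = (0 : F)
      simp [CharTwo.add_self_eq_zero]
  have hE : HasEnoughRootsOfUnity GaussianInt (Monoid.exponent (TB B)) :=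
    HasEnoughRootsOfUnity.of_dvd GaussianInt (Monoid.exponent_dvd_of_forall_pow_eq_one (n := 4) hp)
  let H : Subgroup (TB B) :=
    { carrier := {a | a.x = 0}
      mul_mem' := fun {a b} ha hb => by
        change a.x + b.x = 0
        rw [show a.x = 0 from ha, show b.x = 0 from hb, add_zero]
      one_mem' := rfl
      inv_mem' := fun {a} ha => ha }
  let φ0 : H →* GaussianInt :=
    { toFun := fun a => sg (lam a.1.y)
      map_one' := by
        change sg (lam 0) = 1
        rw [map_zero, sg_zero]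
      map_mul' := fun a b => by
        change sg (lam (a.1.y + b.1.y + B a.1.x b.1.x)) = _
        rw [show a.1.x = 0 from a.2, map_zero, AddMonoidHom.zero_apply, add_zero, map_add, sg_add] }
  obtain ⟨φ, hφ⟩ := MonoidHom.domRestrict_surjective GaussianInt H φ0.toHomUnits
  refine ⟨fun x y => (φ ⟨x, y⟩ : GaussianInt), ⟨?_, ?_⟩, ?_⟩
  · change ((φ 1 : GaussianIntˣ) : GaussianInt) = 1
    rw [map_one, Units.val_one]
  · intro x y x' y'
    change ((φ (⟨x, y⟩ * ⟨x', y'⟩) : GaussianIntˣ) : GaussianInt) = _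
    rw [map_mul, Units.val_mul]
  · intro y
    have := congrArg (fun ψ : H →* GaussianIntˣ => (ψ ⟨⟨0, y⟩, rfl⟩ : GaussianInt)) hφ
    exact this

lemma hi_mul {z z' : GaussianInt} (h : z ^ 4 = 1) (h' : z' ^ 4 = 1) {a a' : ZMod 2}
    (e : z ^ 2 = sg a) (e' : z' ^ 2 = sg a') : hi (z * z') = hi z + hi z' + a * a' := by
  revert a a'
  rcases fourth_root h with rfl | rfl | rfl | rfl <;>
    rcases fourth_root h' with rfl | rfl | rfl | rfl <;> decide

lemma factor_sg (a : ZMod 2) :
    ∃ w, sg a - (-1) = pp ^ 2 * w ∧ red w = if a = 0 then 1 else 0 := by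
  by_cases h : a = 0
  · subst h
    exact ⟨-ii, by decide, by rw [red_apply]; decide⟩
  · refine ⟨0, by simp [sg, h], by simp [h]⟩

section cube

variable {ι : Type} [DecidableEq ι]

omit [CharP F 2] in
lemma cube_insert (b : ι → F) (g : F → ZMod 2) {K : Finset ι} {j : ι} (hj : j ∉ K) :
    ∑ S ∈ (insert j K).powerset, g (∑ k ∈ S, b k)
      = ∑ S ∈ K.powerset, (g (∑ k ∈ S, b k) + g (∑ k ∈ S, b k + b j)) := by
  rw [sum_powerset_insert hj, sum_add_distrib]
  congr 1
  refine sum_congr rfl fun S hS => ?_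
  rw [sum_insert (fun h => hj (mem_powerset.1 hS h)), add_comm]

omit [CharP F 2] in
lemma cube_quad (b : ι → F) (g : F → ZMod 2) (β : F → F → ZMod 2)
    (hβ : ∀ a x y, β (x + y) a = β x a + β y a) (hg : ∀ x a, g (x + a) = g x + g a + β x a)
    {K : Finset ι} (hK : 3 ≤ K.card) : ∑ S ∈ K.powerset, g (∑ k ∈ S, b k) = 0 := by
  obtain ⟨j, hj⟩ := card_pos.1 (show 0 < K.card by omega)
  have c1 := card_erase_of_mem hj
  obtain ⟨i, hi⟩ := card_pos.1 (show 0 < (K.erase j).card by omega)
  have c2 := card_erase_of_mem hi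
  have e1 : ∀ y, g y + g (y + b j) = g (b j) + β y (b j) := fun y => by
    rw [hg]
    linear_combination CharTwo.add_self_eq_zero (g y)
  have e2 : ∀ y, g (b j) + β y (b j) + (g (b j) + β (y + b i) (b j)) = β (b i) (b j) := fun y => by
    rw [hβ]
    linear_combination CharTwo.add_self_eq_zero (g (b j)) + CharTwo.add_self_eq_zero (β y (b j))
  rw [← insert_erase hj, cube_insert _ _ (notMem_erase j K), sum_congr rfl fun S _ => e1 _,
    ← insert_erase hi, cube_insert b (fun y => g (b j) + β y (b j)) (notMem_erase i _),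
    sum_congr rfl fun S _ => e2 _, sum_const, card_powerset, nsmul_eq_mul,
    show ((K.erase j).erase i).card = (((K.erase j).erase i).card - 1) + 1 by omega, pow_succ,
    Nat.cast_mul, show ((2 : ℕ) : ZMod 2) = 0 from rfl, mul_zero, zero_mul]

end cube

variable [Fintype F] [Algebra (ZMod 2) F]

/-- The iterated differences vanish when the weight of the complement is small. -/
lemma DD_zero (hB : ∀ x y, B x y = B y x) {f : F → F} (hf : Bal B W f) {ι : Type} [Fintype ι]
    [DecidableEq ι] (b : Module.Basis ι (ZMod 2) F) (J : Finset ι)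
    (hJ : ∀ j ∉ J, ∃ lam : F →+ ZMod 2, ∀ x, lam (B x x) = b.repr x j) (K : Finset ι)
    (hK : J.card + 3 ≤ K.card) : DD b f K 0 = 0 := by
  have hc : Fintype.card F = 2 ^ Fintype.card ι := by rw [Module.card_fintype b, ZMod.card]
  have h1 : ∀ j, ∃ (χ : F → F → GaussianInt) (c : GaussianInt), Ch B χ ∧ ∀ x, ∃ w,
      χ x (f x) - c = pp ^ (if j ∈ J then 2 else 1) * w ∧
        red w = if b.repr x j = 0 then 1 else 0 := by
    intro j
    by_cases hj : j ∈ J
    · refine ⟨fun x _ => sg (b.repr x j), -1, ⟨by simp [sg_zero], fun x y x' y' => ?_⟩, fun x => ?_⟩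
      · simp [sg_add]
      · rw [if_pos hj]
        exact factor_sg _
    · obtain ⟨lam, hl⟩ := hJ j hj
      obtain ⟨χ, a1, a2⟩ := exists_ch hB lam
      refine ⟨χ, ii, a1, fun x => ?_⟩
      obtain ⟨w, w1, w2⟩ := factor_one (a1.pow_four x (f x))
      refine ⟨w, by rw [if_neg hj, pow_one, w1], ?_⟩
      rw [w2, a1.sq, a2, hl]
      simp only [sg_eq_one_iff]
  choose χ c hχ ht using h1
  have hS : ∑ j ∈ Kᶜ, (if j ∈ J then 2 else 1) + 3 ≤ Fintype.card ι := by
    have e : ∀ j, (if j ∈ J then 2 else 1) = 1 + if j ∈ J then 1 else 0 := fun j => by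
      split_ifs <;> rfl
    have := card_le_univ K
    have h2 : (Kᶜ.filter fun j => j ∈ J).card ≤ J.card := card_le_card fun j hj => (mem_filter.1 hj).2
    rw [sum_congr rfl fun j _ => e j, sum_add_distrib, sum_const, smul_eq_mul, mul_one, card_compl,
      sum_boole, Nat.cast_id]
    omega
  have key : ∀ p, b.repr (DD b f K 0) p = 0 := by
    intro p
    let lam : F →+ ZMod 2 := (b.coord p).toAddMonoidHom
    obtain ⟨φ, a1, a2⟩ := exists_ch hB lam
    have h2 := parity hc hf χ hχ c _ _ ht Kᶜ hS a1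
    rw [sum_flat b K fun x => hi (φ x (f x))] at h2
    have h3 : ∀ x y, hi (φ x y) = hi (φ x 0) + lam y := fun x y => by
      rw [← hi_mul_sg (a1.pow_four x 0), ← a2, ← a1.add_right, zero_add]
    have h4 := cube_quad b (fun x => hi (φ x 0))
      (fun x a => lam (B x x) * lam (B a a) + lam (B x a))
      (fun a x y => by
        simp only [map_add, AddMonoidHom.add_apply, hB y x]
        linear_combination lam (B a a) * CharTwo.add_self_eq_zero (lam (B x y)))
      (fun x a => by
        have e := hi_mul (a1.pow_four x 0) (a1.pow_four a 0) ((a1.sq x 0).trans (a2 _))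
          ((a1.sq a 0).trans (a2 _))
        rw [← a1.2, h3, add_zero, zero_add] at e
        linear_combination e - CharTwo.add_self_eq_zero (lam (B x a)))
      (K := K) (by omega)
    rw [sum_congr rfl fun S _ => h3 _ _, sum_add_distrib, h4, zero_add, ← map_sum] at h2
    simp only [DD, zero_add]
    exact h2
  apply b.repr.injective
  ext p
  rw [key, map_zero, Finsupp.zero_apply]

/-- A basis adapted to the kernel of `x ↦ B x x`. -/
lemma exists_basis (hB : ∀ x y, B x y = B y x) {s : ℕ}
    (hs : Nat.card {x : F // B x x = 0} = 2 ^ s) :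
    ∃ (ι : Type) (_ : Fintype ι) (_ : DecidableEq ι) (b : Module.Basis ι (ZMod 2) F) (J : Finset ι),
      J.card = s ∧ ∀ j ∉ J, ∃ lam : F →+ ZMod 2, ∀ x, lam (B x x) = b.repr x j := by
  have : Fact (Nat.Prime 2) := ⟨Nat.prime_two⟩
  let σ0 : F →+ F := AddMonoidHom.mk' (fun x => B x x) fun x y => by
    simp only [map_add, AddMonoidHom.add_apply, hB y x]
    linear_combination CharTwo.add_self_eq_zero (B x y)
  let σ : F →ₗ[ZMod 2] F := σ0.toZModLinearMap 2
  obtain ⟨C, hC⟩ := (LinearMap.ker σ).exists_isCompl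
  have h1 : Module.finrank (ZMod 2) (LinearMap.ker σ) = s := by
    have e : Nat.card (LinearMap.ker σ) = 2 ^ s := hs
    rw [Module.natCard_eq_pow_finrank (K := ZMod 2), Nat.card_zmod] at e
    exact Nat.pow_right_injective le_rfl e
  let b := ((Module.finBasis (ZMod 2) (LinearMap.ker σ)).prod (Module.finBasis (ZMod 2) C)).map
    (Submodule.prodEquivOfIsCompl _ _ hC)
  refine ⟨_, inferInstance, inferInstance, b, univ.map Function.Embedding.inl, by simp [h1], ?_⟩
  rintro (j | j) hj
  · exact absurd (mem_map.2 ⟨j, mem_univ _, rfl⟩) hj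
  · have h2 : b.coord (Sum.inr j) ∈ (LinearMap.ker σ).dualAnnihilator := by
      rw [Submodule.mem_dualAnnihilator]
      intro x hx
      have := Submodule.prodEquivOfIsCompl_symm_apply_left _ _ hC ⟨x, hx⟩
      simp only [b, Module.Basis.coord_apply, Module.Basis.map_repr, LinearEquiv.trans_apply]
      rw [this, Module.Basis.prod_repr_inr]
      simp
    rw [← LinearMap.range_dualMap_eq_dualAnnihilator_ker] at h2
    obtain ⟨lam, hl⟩ := h2
    exact ⟨lam.toAddMonoidHom, fun x => congrArg (fun l => l x) hl⟩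

/-- the monomial whose exponent has the binary digits `S` -/
def mono {m : ℕ} (S : Finset (Fin m)) : F → F := fun x => x ^ ∑ i ∈ S, 2 ^ (i : ℕ)

/-- functions of binary degree at most `d` -/
def Deg (F : Type) [Field F] (m d : ℕ) : Submodule F (F → F) :=
  Submodule.span F (mono '' ((univ.filter fun S : Finset (Fin m) => S.card ≤ d : Finset (Finset (Fin m))) :
    Set (Finset (Fin m))))

omit [CharP F 2] [Algebra (ZMod 2) F] in
lemma mono_mul {m : ℕ} (hm : 0 < m) (hF : Fintype.card F = 2 ^ m) (n : ℕ) :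
    ∀ S : Finset (Fin m), S.card = n → ∀ i : ℕ, ∃ S' : Finset (Fin m), S'.card ≤ n + 1 ∧
      ∀ x : F, mono S x * x ^ 2 ^ i = mono S' x := by
  have hp : ∀ (x : F) (k : ℕ), x ^ 2 ^ k = x ^ 2 ^ (k % m) := fun x k => by
    conv_lhs => rw [← Nat.div_add_mod k m, pow_add, pow_mul, pow_mul, ← hF,
      FiniteField.pow_card_pow]
  induction n with
  | zero =>
    intro S hS i
    refine ⟨{⟨i % m, Nat.mod_lt _ hm⟩}, by simp, fun x => ?_⟩
    rw [card_eq_zero.1 hS, hp]
    simp [mono]
  | succ n ih =>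
    intro S hS i
    by_cases h : (⟨i % m, Nat.mod_lt _ hm⟩ : Fin m) ∈ S
    · obtain ⟨S', h1, h2⟩ := ih (S.erase ⟨i % m, Nat.mod_lt _ hm⟩)
        (by rw [card_erase_of_mem h, hS]; rfl) (i % m + 1)
      refine ⟨S', by omega, fun x => ?_⟩
      rw [← h2, hp x i, mono, mono, ← sum_erase_add _ _ h, pow_add, mul_assoc, ← pow_add, pow_succ,
        mul_two]
    · refine ⟨insert _ S, by rw [card_insert_of_notMem h, hS], fun x => ?_⟩
      rw [hp x i, mono, mono, sum_insert h, pow_add, mul_comm]

omit [CharP F 2] [Algebra (ZMod 2) F] in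
lemma Deg.mul_pow {m d : ℕ} (hm : 0 < m) (hF : Fintype.card F = 2 ^ m) {g : F → F}
    (hg : g ∈ Deg F m d) (i : ℕ) : (fun x => g x * x ^ 2 ^ i) ∈ Deg F m (d + 1) := by
  induction hg using Submodule.span_induction with
  | mem g hg =>
    obtain ⟨S, hS, rfl⟩ := hg
    obtain ⟨S', h1, h2⟩ := mono_mul hm hF _ S rfl i
    have h3 := (mem_filter.1 (mem_coe.1 hS)).2
    exact Submodule.subset_span ⟨S', mem_coe.2 (mem_filter.2 ⟨mem_univ _, by omega⟩),
      (funext h2).symm⟩
  | zero =>
    simp only [Pi.zero_apply, zero_mul]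
    exact (Deg F m (d + 1)).zero_mem
  | add g g' _ _ h h' =>
    simp only [Pi.add_apply, add_mul]
    exact (Deg F m (d + 1)).add_mem h h'
  | smul a g _ h =>
    simp only [Pi.smul_apply, smul_eq_mul, mul_assoc]
    exact (Deg F m (d + 1)).smul_mem a h

omit [CharP F 2] in
lemma Deg.mul_lin {m d : ℕ} (hm : 0 < m) (hF : Fintype.card F = 2 ^ m) {g : F → F}
    (hg : g ∈ Deg F m d) (l : F →ₗ[ZMod 2] ZMod 2) :
    (fun x => g x * algebraMap (ZMod 2) F (l x)) ∈ Deg F m (d + 1) := by
  have : Fact (Nat.Prime 2) := ⟨Nat.prime_two⟩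
  obtain ⟨u, hu⟩ := ((Algebra.traceForm (ZMod 2) F).toDual
    (traceForm_nondegenerate (ZMod 2) F)).surjective l
  have e : (fun x => g x * algebraMap (ZMod 2) F (l x)) =
      ∑ i ∈ range (Module.finrank (ZMod 2) F), u ^ 2 ^ i • fun x => g x * x ^ 2 ^ i := by
    funext x
    have h1 : l x = Algebra.trace (ZMod 2) F (u * x) := by
      rw [← hu, LinearMap.BilinForm.toDual_def, Algebra.traceForm_apply]
    rw [h1, FiniteField.algebraMap_trace_eq_sum_pow, Finset.sum_apply, mul_sum]
    refine sum_congr rfl fun i _ => ?_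
    simp only [Nat.card_zmod, _root_.mul_pow, Pi.smul_apply, smul_eq_mul]
    ring
  rw [e]
  exact Submodule.sum_mem _ fun i _ => Submodule.smul_mem _ _ (Deg.mul_pow hm hF hg i)

theorem deg_le (hB : ∀ x y, B x y = B y x) {f : F → F} (hf : Bal B W f) {m s : ℕ}
    (hF : Fintype.card F = 2 ^ m) (hs : Nat.card {x : F // B x x = 0} = 2 ^ s) :
    f ∈ Deg F m (s + 2) := by
  have hm : 0 < m := by
    have := Fintype.one_lt_card (α := F)
    rcases m with _ | m
    · omega
    · omega
  obtain ⟨ι, _, _, b, J, h1, h2⟩ := exists_basis hB hs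
  have h3 : ∀ T : Finset ι,
      (fun x => ∏ j ∈ T, algebraMap (ZMod 2) F (b.repr x j)) ∈ Deg F m T.card := by
    intro T
    induction T using Finset.induction_on with
    | empty => exact Submodule.subset_span ⟨∅, by simp, by funext x; simp [mono]⟩
    | insert j T hj ih =>
      have := Deg.mul_lin hm hF ih (b.coord j)
      simpa only [prod_insert hj, card_insert_of_notMem hj, mul_comm, Module.Basis.coord_apply]
        using this
  have e : f = ∑ T : Finset ι,
      DD b f T 0 • fun x => ∏ j ∈ T, algebraMap (ZMod 2) F (b.repr x j) := by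
    funext x
    rw [anf b f x, Finset.sum_apply]
    rfl
  rw [e]
  refine Submodule.sum_mem _ fun T _ => ?_
  rcases Nat.lt_or_ge T.card (s + 3) with h | h
  · refine Submodule.smul_mem _ _ (Submodule.span_mono (Set.image_mono fun S hS => ?_) (h3 T))
    have := (mem_filter.1 (mem_coe.1 hS)).2
    exact mem_coe.2 (mem_filter.2 ⟨mem_univ _, by omega⟩)
  · rw [DD_zero hB hf b J h2 T (by omega), zero_smul]
    exact Submodule.zero_mem _

end Pool.Agent.Lib.MP_d2e2bc_co.Vec
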